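import Pool.Agent.H29.NzParam

/-!
Weighted majorities of constant depth circuits with few arbitrary threshold gates and few
arbitrary weighted symmetric gates do not decide the k-clique problem in size n ^ c, if k is large.
-/

open Finset

namespace Pool.Agent.H29.Shelf.MajorityCircuits

/-- The gate is an input gate: it tells whether `u` and `v` are adjacent. -/
def IsInput {n : ℕ} (f : SimpleGraph (Fin n) → Bool) : Prop :=
  ∃ u v, ∀ G, f G = true ↔ G.Adj u v

/-- The gate `i` is the disjunction of a set of gates and negated gates of smaller level. -/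
def IsOr {n s : ℕ} (fn : Fin s → SimpleGraph (Fin n) → Bool) (lev : Fin s → ℕ) (i : Fin s) :
    Prop :=
  ∃ T : Finset (Fin s × Bool), (∀ x ∈ T, lev x.1 < lev i) ∧
    ∀ G, fn i G = true ↔ ∃ x ∈ T, fn x.1 G = x.2

/-- The gate `i` is the conjunction of a set of gates and negated gates of smaller level. -/
def IsAnd {n s : ℕ} (fn : Fin s → SimpleGraph (Fin n) → Bool) (lev : Fin s → ℕ) (i : Fin s) :
    Prop :=
  ∃ T : Finset (Fin s × Bool), (∀ x ∈ T, lev x.1 < lev i) ∧
    ∀ G, fn i G = true ↔ ∀ x ∈ T, fn x.1 G = x.2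

/-- The gate `i` is a linear threshold gate of gates of smaller level, with arbitrary real
weights `a` and an arbitrary real threshold `θ`. -/
def IsThr {n s : ℕ} (fn : Fin s → SimpleGraph (Fin n) → Bool) (lev : Fin s → ℕ) (i : Fin s) :
    Prop :=
  ∃ (a : Fin s → ℝ) (θ : ℝ), (∀ j, a j ≠ 0 → lev j < lev i) ∧
    ∀ G, fn i G = true ↔ θ ≤ ∑ j, if fn j G = true then a j else 0

/-- The gate `i` is an arbitrary predicate `P` of a sum of gates of smaller level with integer
weights `a` of absolute value at most `B`; for weights 0 and 1 this is an arbitrary symmetric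
gate. -/
def IsSum {n s : ℕ} (B : ℕ) (fn : Fin s → SimpleGraph (Fin n) → Bool) (lev : Fin s → ℕ)
    (i : Fin s) : Prop :=
  ∃ (a : Fin s → ℤ) (P : ℤ → Prop), (∀ j, |a j| ≤ B) ∧ (∀ j, a j ≠ 0 → lev j < lev i) ∧
    ∀ G, fn i G = true ↔ P (∑ j, if fn j G = true then a j else 0)

/-- A circuit on graphs with vertex set `Fin n`, with `s` gates, of depth at most `d`, with at most
`g` special gates: the Boolean function computed by each gate and the level of each gate. All
gates that are not special are input gates, disjunctions and conjunctions. -/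
structure Circuit (n s d g B : ℕ) where
  fn : Fin s → SimpleGraph (Fin n) → Bool
  lev : Fin s → ℕ
  lev_le : ∀ i, lev i ≤ d
  special : Finset (Fin s)
  card_special : special.card ≤ g
  gate : ∀ i, IsInput (fn i) ∨ IsOr fn lev i ∨ IsAnd fn lev i ∨
    (i ∈ special ∧ (IsThr fn lev i ∨ IsSum B fn lev i))

open Classical in
open Pool.Agent.H29.Nz in
/-- one circuit: the guessed values of the special gates -/
theorem circuit_guess {n s d g B : ℕ} (C : Circuit n s d g B) :
    ∃ (sp : Finset (Fin s)) (gs : ({x // x ∈ sp} → Bool) → Gr (Fin n) → Fin s → Bool)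
      (φ : {x // x ∈ sp} → (Fin s → Bool) → Bool), sp.card ≤ g ∧
      Sys d 2 (fun (a : Fin s × ({x // x ∈ sp} → Bool)) H => gs a.2 H a.1) ∧
      (∀ b H (x : {x // x ∈ sp}), gs b H x = b x) ∧
      (∀ b H, (∀ x : {x // x ∈ sp}, C.fn x (toSG H) = b x) → ∀ i, gs b H i = C.fn i (toSG H)) ∧
      (∀ b H, (∀ x : {x // x ∈ sp}, φ x (gs b H) = b x) → ∀ i, gs b H i = C.fn i (toSG H)) ∧
      (∀ (x : {x // x ∈ sp}) H, C.fn x (toSG H) = φ x (fun j => C.fn j (toSG H))) ∧
      ∀ (p : ℕ) (Λ : ℝ), 1 ≤ p → ((s : ℝ) + 2) ^ 3 + 3 ≤ Λ → 2 * ((s : ℝ) * B) + 1 ≤ Λ →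
        ∀ x, Easy p Λ (φ x) := by
  let sp : Finset (Fin s) := C.special.filter (fun i => IsThr C.fn C.lev i ∨ IsSum B C.fn C.lev i)
  have hspg : sp.card ≤ g := (Finset.card_filter_le _ _).trans C.card_special
  let fn' : Fin s → Gr (Fin n) → Bool := fun i H => C.fn i (toSG H)
  obtain ⟨gs, hsys, hg0, hg1, hg2⟩ := exists_guess (w := 2) C.lev C.lev_le sp fn' (by
    intro i hi
    rcases C.gate i with h | h | h | h
    · obtain ⟨u, v, huv⟩ := h
      exact Or.inl (jun_edge _ u v huv)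
    · obtain ⟨T, hT, h⟩ := h
      refine Or.inr ⟨false, T, hT, fun G => ?_⟩
      rw [Bool.false_xor, Bool.eq_iff_iff, decide_eq_true_eq]
      exact h _
    · obtain ⟨T, hT, h⟩ := h
      refine Or.inr ⟨true, T.image (fun x => (x.1, !x.2)), ?_, fun G => ?_⟩
      · intro x hx
        obtain ⟨y, hy, rfl⟩ := Finset.mem_image.1 hx
        exact hT y hy
      · rw [Bool.eq_iff_iff, Bool.true_xor, Bool.not_eq_true', decide_eq_false_iff_not]
        show C.fn i (toSG G) = true ↔ _
        rw [h]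
        constructor
        · rintro hall ⟨x, hx, hx'⟩
          obtain ⟨y, hy, rfl⟩ := Finset.mem_image.1 hx
          have h3 := hall y hy
          simp only [fn'] at hx'
          rw [h3] at hx'
          cases y.2 <;> simp at hx'
        · intro hno x hx
          by_contra hne
          apply hno
          refine ⟨(x.1, !x.2), Finset.mem_image.2 ⟨x, hx, rfl⟩, ?_⟩
          simp only [fn']
          cases h5 : C.fn x.1 (toSG G) <;> cases h6 : x.2 <;> simp_all
    · exact absurd (Finset.mem_filter.2 h) hi)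
  -- the gate functions
  have hφ : ∀ x : {x // x ∈ sp}, ∃ φ : (Fin s → Bool) → Bool,
      (∀ v v', (∀ j, C.lev j < C.lev x → v j = v' j) → φ v = φ v') ∧
      (∀ H, fn' x H = φ (fun j => fn' j H)) ∧
      ∀ (p : ℕ) (Λ : ℝ), 1 ≤ p → ((s : ℝ) + 2) ^ 3 + 3 ≤ Λ → 2 * ((s : ℝ) * B) + 1 ≤ Λ →
        Easy p Λ φ := by
    intro x
    rcases (Finset.mem_filter.1 x.2).2 with h | h
    · obtain ⟨a, θ, ha, hfa⟩ := h
      refine ⟨fun v => decide (θ ≤ ∑ j, if v j = true then a j else 0), ?_, ?_, ?_⟩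
      · intro v v' h
        have h1 : (∑ j, if v j = true then a j else 0) = ∑ j, if v' j = true then a j else 0 := by
          apply Finset.sum_congr rfl
          intro j _
          by_cases haj : a j = 0
          · rw [haj]; simp
          · rw [h j (ha j haj)]
        simp only
        rw [h1]
      · intro H
        simp only [fn']
        rw [Bool.eq_iff_iff, decide_eq_true_eq]
        exact hfa _
      · intro p Λ hp h1 _
        exact (easy_thr hp a θ _ (fun v => by simp only [decide_eq_true_eq])).mono h1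
    · obtain ⟨a, P, haB, ha, hfa⟩ := h
      refine ⟨fun v => decide (P (∑ j, if v j = true then a j else 0)), ?_, ?_, ?_⟩
      · intro v v' h
        have h1 : (∑ j, if v j = true then a j else 0) = ∑ j, if v' j = true then a j else 0 := by
          apply Finset.sum_congr rfl
          intro j _
          by_cases haj : a j = 0
          · rw [haj]; simp
          · rw [h j (ha j haj)]
        simp only
        rw [h1]
      · intro H
        simp only [fn']
        rw [Bool.eq_iff_iff, decide_eq_true_eq]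
        exact hfa _
      · intro p Λ _ _ h2
        exact (easy_sum B a P _ haB (fun v => by simp only [decide_eq_true_eq])).mono h2
  choose φ hφ1 hφ2 hφ3 using hφ
  exact ⟨sp, gs, φ, hspg, hsys, hg0, hg1, hg2 φ hφ1 hφ2, hφ2, fun p Λ h1 h2 h3 x =>
    hφ3 x p Λ h1 h2 h3⟩

open Classical in
open Pool.Agent.H29.Nz in
/-- Main theorem: for all `d` and `c` there is a constant `a` such that for all `g`, all
`k ≥ a * (g + 1)` and all large `n` the k-clique problem on `n` vertices is not decided by any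
threshold gate, with integer weights of absolute value at most `n ^ c`, of at most `n ^ c` circuits
of depth `d` with at most `n ^ c` gates each, all of them AND and OR gates of unbounded fan-in with
free negations except for at most `g` gates per circuit; these are arbitrary linear threshold gates
with real weights or arbitrary predicates of sums with integer weights of absolute value at most
`n ^ c`. -/
theorem result (d c : ℕ) : ∃ a : ℕ, ∀ g k : ℕ, a * (g + 1) ≤ k → ∃ n₀ : ℕ, ∀ n ≥ n₀,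
    ∀ s ≤ n ^ c, ∀ t ≤ n ^ c, ∀ (C : Fin t → Circuit n s d g (n ^ c)) (o : Fin t → Fin s)
      (w : Fin t → ℤ) (θ : ℤ), (∀ j, |w j| ≤ (n ^ c : ℕ)) →
      ¬ ∀ G : SimpleGraph (Fin n),
        (θ ≤ ∑ j, if (C j).fn (o j) G = true then w j else 0) ↔ ¬ G.CliqueFree k := by
  obtain ⟨W, E₀, hE₀, Q₀, hcol⟩ := collapse d 2 (2 * c + 1)
  obtain ⟨h, hh2, hh⟩ := rh_pow (W / 2)
  obtain ⟨P, hP⟩ : ∃ P, P = W / 2 + 1 := ⟨_, rfl⟩
  refine ⟨(P + 1) * (h * (P * E₀ * (2 * c + 1 + (3 * c + 4)) + 1)) + 2 * E₀ + 4,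
    fun g k hk => ?_⟩
  obtain ⟨c₁, hc₁⟩ : ∃ c₁, c₁ = 2 * c + 1 + (3 * c + 4) * g := ⟨_, rfl⟩
  obtain ⟨q, hq⟩ : ∃ q, q = h * (P * E₀ * c₁ + 1) := ⟨_, rfl⟩
  have hq2 : 2 ≤ q := by
    rw [hq]
    have : 1 ≤ P * E₀ * c₁ + 1 := by omega
    nlinarith
  have hkq : P * q + q + 2 * E₀ + 4 ≤ k := by
    refine le_trans ?_ hk
    have h1 : c₁ ≤ (2 * c + 1 + (3 * c + 4)) * (g + 1) := by rw [hc₁]; nlinarith
    have h2 : P * E₀ * c₁ + 1 ≤ (P * E₀ * (2 * c + 1 + (3 * c + 4)) + 1) * (g + 1) := by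
      calc P * E₀ * c₁ + 1 ≤ P * E₀ * ((2 * c + 1 + (3 * c + 4)) * (g + 1)) + 1 := by
            have := Nat.mul_le_mul_left (P * E₀) h1
            omega
        _ ≤ _ := by
            generalize 2 * c + 1 + (3 * c + 4) = A
            have h3 : P * E₀ * (A * (g + 1)) = P * E₀ * A * (g + 1) := by ring
            rw [h3, add_mul (P * E₀ * A)]
            omega
    have h3 : (P + 1) * q ≤
        (P + 1) * (h * (P * E₀ * (2 * c + 1 + (3 * c + 4)) + 1)) * (g + 1) := by
      rw [hq]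
      calc (P + 1) * (h * (P * E₀ * c₁ + 1)) ≤
            (P + 1) * (h * ((P * E₀ * (2 * c + 1 + (3 * c + 4)) + 1) * (g + 1))) :=
            Nat.mul_le_mul_left _ (Nat.mul_le_mul_left _ h2)
        _ = _ := by ring
    calc P * q + q + 2 * E₀ + 4 = (P + 1) * q + (2 * E₀ + 4) := by ring
      _ ≤ (P + 1) * (h * (P * E₀ * (2 * c + 1 + (3 * c + 4)) + 1)) * (g + 1) +
          (2 * E₀ + 4) * (g + 1) := by
          apply add_le_add h3
          exact Nat.le_mul_of_pos_right _ (by omega)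
      _ = _ := by ring
  obtain ⟨r, hr⟩ : ∃ r, k = P * q + q + r := ⟨k - (P * q + q), by omega⟩
  obtain ⟨K0, hK0⟩ : ∃ K0, K0 = P * q + 2 * q + r := ⟨_, rfl⟩
  obtain ⟨b₀, hb₀⟩ : ∃ b₀, b₀ = 2 * ((K0 * 2 ^ P) ^ E₀) ^ c₁ := ⟨_, rfl⟩
  obtain ⟨R1, hR1⟩ : ∃ R1, R1 = K0 * 2 ^ (P * b₀) := ⟨_, rfl⟩
  obtain ⟨R2, hR2⟩ : ∃ R2, R2 = 2 ^ (g + 1 + 2 * c * E₀) := ⟨_, rfl⟩
  obtain ⟨Q₁, hQ₁⟩ : ∃ Q₁, Q₁ = Q₀ + R1 + R2 + 16 := ⟨_, rfl⟩
  refine ⟨Q₁ ^ E₀, fun n hn s hs t ht C o w θ hw hdec => ?_⟩
  have hQ₁n : Q₁ ≤ n := (Nat.le_self_pow (by omega) _).trans hn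
  obtain ⟨Q, hQn, hnQ⟩ := exists_root E₀ n hE₀ (by omega)
  have hQ : Q₁ ≤ Q := by
    have h1 : Q₁ ^ E₀ < (Q + 1) ^ E₀ := lt_of_le_of_lt hn hnQ
    have h2 : Q₁ < Q + 1 := lt_of_pow_lt_pow_left₀ E₀ (by omega) h1
    omega
  obtain ⟨b, hbb, hb1, hb2⟩ := exists_b K0 P Q b₀ (by omega) (by omega) (by omega)
  -- the guessed values
  choose sp gs φ hsp hsys hg0 hg1 hg2 hφ2 hφ3 using fun j => circuit_guess (C j)
  have hcard : Fintype.card (Σ j : Fin t, (Fin s × ({x // x ∈ sp j} → Bool))) ≤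
      (t * s) * 2 ^ g := by
    rw [Fintype.card_sigma]
    calc _ ≤ ∑ _j : Fin t, s * 2 ^ g := by
          apply Finset.sum_le_sum
          intro j _
          rw [Fintype.card_prod, Fintype.card_fin, Fintype.card_fun, Fintype.card_bool,
            Fintype.card_coe]
          exact Nat.mul_le_mul_left _ (Nat.pow_le_pow_right (by norm_num) (hsp j))
      _ = _ := by rw [Finset.sum_const, Finset.card_univ, Fintype.card_fin, smul_eq_mul]; ring
  have hts : t * s ≤ n ^ (2 * c) := by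
    calc t * s ≤ n ^ c * n ^ c := Nat.mul_le_mul ht hs
      _ = _ := by rw [← pow_add]; congr 1; ring
  obtain ⟨F, hF1, hF2⟩ := hcol Q (by omega) (VX P q b r)
    ((card_VX (by omega)).trans (by rw [← hK0]; exact hb1)) n hQn
    (Σ j : Fin t, (Fin s × ({x // x ∈ sp j} → Bool))) _ (Sys.sigma _ hsys)
    ((Nat.mul_le_mul_left 2 hcard).trans
      (size_cond hts (le_refl g) hnQ (by rw [← hR2]; omega) hE₀))
  obtain ⟨hw1, hw2, hw3, -, hw5⟩ := weight_bounds c g n s t g (by omega) hs ht (le_refl g)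
  -- the circuits are combinations of cylinder intersections
  have hKc : ∀ j, Kc ((n : ℝ) ^ ((3 * c + 4) * g))
      (fun x : Pt P (Fin q × Fin b) =>
        if (fun x => (C j).fn (o j) (toSG (F (HX x)))) x = true then 1 else 0) := by
    intro j
    have h1 := circ_Kc (p := P) (L := Fin q × Fin b)
      (fun x : {x // x ∈ sp j} => (x : Fin s)) (fun b y i => gs j b (F (HX y)) i)
      (fun y i => (C j).fn i (toSG (F (HX y)))) (o j)
      (fun b i => by
        obtain ⟨π, hπ⟩ := jun_HX (p := P) (by omega) (hF2 ⟨j, (i, b)⟩)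
        exact ⟨π, hπ⟩)
      (fun b y x => hg0 j b _ x)
      (fun b y h i => hg1 j b _ h i)
      (φ j)
      (fun b y h i => hg2 j b _ h i)
      (fun x y => hφ2 j x _)
      (hφ3 j P ((n : ℝ) ^ (3 * c + 4) / 2 - 1) (by omega) hw1 (by push_cast at hw2 ⊢; exact hw2))
    rw [Fintype.card_coe] at h1
    exact h1.mono (weight_bounds c g n s t (sp j).card (by omega) hs ht (hsp j)).2.2.2.1
  subst hP
  have hmaj := maj_core ((n : ℝ) ^ ((3 * c + 4) * g))
    (fun j x => (C j).fn (o j) (toSG (F (HX x)))) hKc w (n ^ c) hw θ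
    (by
      intro x
      rw [hdec (toSG (F (HX x))), clique_toSG, hF1 k (by omega), hr, clq_HX hq2]) hw3
  have h1 := final_contra (W / 2 + 1) h E₀ c₁ q 0 b n Q K0 (rh_nonneg _) hh hq hnQ hb2 (by
    rw [← hb₀]
    exact lt_of_le_of_lt hbb Nat.lt_two_pow_self)
  have h2 : (0 : ℝ) ≤ rh (W / 2) ^ (q * b) := pow_nonneg (rh_nonneg _) _
  have h3 := mul_le_mul_of_nonneg_right hw5 h2
  rw [← hc₁] at h3
  linarith

end Pool.Agent.H29.Shelf.MajorityCircuits
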