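import Pool.Agent.H29.NW.Lower
import Pool.Agent.H29.NW.Upper

/-!
The size of circuits of bounded negation width for k-clique, up to the constant in the exponent,
and a lower bound for circuits that are correct only on few slices.
-/

namespace Pool.Agent.H29.Shelf.NegationWidth

open Pool.Agent.H29.NW

/-- For every k ≥ 32 there is a constant K such that: if K a ≤ n² and a ≤ w², then every circuit
of width at most w that decides k-clique on the n-vertex graphs with a to a + a / w edges has at
least (a / (K w)) ^ (k / 70) gates; and for k² ≤ n ≤ w ≤ n² some circuit of width at most w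
decides k-clique on all n-vertex graphs with at most (K n² / w) ^ (k / 2) gates. -/
theorem result : ∀ k : ℕ, 32 ≤ k → ∃ K : ℝ, 0 < K ∧ ∀ n w : ℕ,
    (∀ a b : ℕ, K * a ≤ (n : ℝ) ^ 2 → a ≤ w ^ 2 → a + a / w ≤ b →
      ∀ (ι : Type) [Fintype ι] (C : Circuit n ι), C.Decides k w a b →
        ((a : ℝ) / (K * w)) ^ ((k : ℝ) / 70) ≤ Fintype.card ι) ∧
    (k ^ 2 ≤ n → n ≤ w → w ≤ n ^ 2 →
      ∃ (ι : Type) (_ : Fintype ι) (C : Circuit n ι), (∀ a b, C.Decides k w a b) ∧
        (Fintype.card ι : ℝ) ≤ (K * n ^ 2 / w) ^ ((k : ℝ) / 2)) := by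
  intro k hk
  obtain ⟨K, hK, hlow⟩ := lower k hk
  refine ⟨max K ((24 * k : ℝ) ^ 2), lt_max_of_lt_left hK, fun n w => ⟨?_, ?_⟩⟩
  · intro a b han haw hab ι _ C hC
    have h1 := hlow n w a b haw
      ((mul_le_mul_of_nonneg_right (le_max_left _ _) (Nat.cast_nonneg a)).trans han) hab ι C hC
    refine le_trans (Real.rpow_le_rpow (by positivity) ?_ (by positivity)) h1
    rcases Nat.eq_zero_or_pos w with hw | hw
    · subst hw; simp
    · have hw' : (0 : ℝ) < w := by exact_mod_cast hw
      apply div_le_div_of_nonneg_left (by positivity) (by positivity)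
      exact mul_le_mul_of_nonneg_right (le_max_left _ _) hw'.le
  · intro hkn hnw hw
    obtain ⟨ι, hι, C, hC, hcard⟩ := upper k (by omega) n w hkn hnw hw
    refine ⟨ι, hι, C, hC, hcard.trans ?_⟩
    apply Real.rpow_le_rpow (by positivity) _ (by positivity)
    apply div_le_div_of_nonneg_right _ (by positivity)
    exact mul_le_mul_of_nonneg_right (le_max_right _ _) (by positivity)

end Pool.Agent.H29.Shelf.NegationWidth
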